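import Mathlib
import Pool.Agent.H923R2.FP.Stubs

/-!
# Norm estimate for a free Haar unitary (helper911): the core

`A` a C*-algebra with a faithful tracial state `τ`, `u` a unitary, `S` a `*`-subalgebra.  Words in
`u`, `u*` and the trace zero elements of `S`; if all nonempty reduced words have trace zero then
`‖(u b)^k‖ ≤ (k+1) ‖b‖ ‖b‖_2^(k-1)` for `b` in `S`.
-/

set_option autoImplicit false

noncomputable section

namespace Pool.Agent.H911R5.RDGcore

open Pool.Agent.H923R2.FP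
open scoped ComplexConjugate

/-- letters -/
inductive Lr (A : Type) : Type
  | p : Lr A
  | m : Lr A
  | s : A → Lr A

/-- types -/
inductive Ty : Type
  | z | p | m | s

open Lr

variable {A : Type}

/-- type of a letter -/
def ty : Lr A → Ty
  | .p => .p
  | .m => .m
  | .s _ => .s

/-- type of a word -/
def hd : List (Lr A) → Ty
  | [] => .z
  | x :: _ => ty x

/-- compatible neighbours -/
def ok : Lr A → Lr A → Prop
  | .p, .m => False
  | .m, .p => False
  | .s _, .s _ => False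
  | _, _ => True

variable [CStarAlgebra A]

/-- value of a letter -/
def vl (u : A) : Lr A → A
  | .p => u
  | .m => star u
  | .s a => a

/-- value of a word -/
def val (u : A) (w : List (Lr A)) : A := (w.map (vl u)).prod

/-- good letter -/
def gl (τ : A →ₗ[ℂ] ℂ) (S : StarSubalgebra ℂ A) : Lr A → Prop
  | .s a => a ∈ S ∧ τ a = 0
  | _ => True

/-- reduced words -/
def Red (τ : A →ₗ[ℂ] ℂ) (S : StarSubalgebra ℂ A) (w : List (Lr A)) : Prop :=
  (∀ x ∈ w, gl τ S x) ∧ w.IsChain ok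

/-- adjoint of a letter -/
def adj : Lr A → Lr A
  | .p => .m
  | .m => .p
  | .s a => .s (star a)

@[simp] theorem val_nil (u : A) : val u ([] : List (Lr A)) = 1 := rfl

@[simp] theorem val_cons (u : A) (x : Lr A) (w : List (Lr A)) :
    val u (x :: w) = vl u x * val u w := by simp [val]

theorem val_append (u : A) (w w' : List (Lr A)) :
    val u (w ++ w') = val u w * val u w' := by simp [val]

theorem vl_adj (u : A) (x : Lr A) : vl u (adj x) = star (vl u x) := by
  cases x <;> simp [vl, adj]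

/-- adjoint of a word -/
def adjw (w : List (Lr A)) : List (Lr A) := (w.map adj).reverse

theorem val_adjw (u : A) (w : List (Lr A)) : val u (adjw w) = star (val u w) := by
  induction w with
  | nil => simp [adjw]
  | cons x w ih =>
    have h : adjw (x :: w) = adjw w ++ [adj x] := by simp [adjw]
    rw [h, val_append, ih, val_cons, val_cons, val_nil, mul_one, star_mul, vl_adj]

theorem ok_adj (x y : Lr A) (h : ok x y) : ok (adj y) (adj x) := by
  cases x <;> cases y <;> simp_all [ok, adj]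

theorem ok_junction (x y : Lr A) (h : ty x ≠ ty y) : ok (adj x) y := by
  cases x <;> cases y <;> simp_all [ok, adj, ty]

theorem gl_adj {τ : A →ₗ[ℂ] ℂ} (hτ : FTS τ) {S : StarSubalgebra ℂ A} (x : Lr A)
    (h : gl τ S x) : gl τ S (adj x) := by
  cases x with
  | p => trivial
  | m => trivial
  | s a =>
    refine ⟨star_mem h.1, ?_⟩
    rw [hτ.str, h.2, map_zero]

theorem Red.adjw {τ : A →ₗ[ℂ] ℂ} (hτ : FTS τ) {S : StarSubalgebra ℂ A} {w : List (Lr A)}
    (h : Red τ S w) : Red τ S (adjw w) := by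
  refine ⟨?_, ?_⟩
  · intro x hx
    simp only [RDGcore.adjw, List.mem_reverse, List.mem_map] at hx
    obtain ⟨y, hy, rfl⟩ := hx
    exact gl_adj hτ y (h.1 y hy)
  · unfold RDGcore.adjw
    rw [List.isChain_reverse, List.isChain_map]
    exact h.2.imp fun a b hab => ok_adj a b hab

theorem Red.junction {τ : A →ₗ[ℂ] ℂ} (hτ : FTS τ) {S : StarSubalgebra ℂ A} {w w' : List (Lr A)}
    (h : Red τ S w) (h' : Red τ S w') (hne : hd w ≠ hd w') :
    Red τ S (RDGcore.adjw w ++ w') ∧ RDGcore.adjw w ++ w' ≠ [] := by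
  refine ⟨⟨?_, ?_⟩, ?_⟩
  · intro x hx
    rcases List.mem_append.1 hx with hx | hx
    · exact (h.adjw hτ).1 x hx
    · exact h'.1 x hx
  · rw [List.isChain_append]
    refine ⟨(h.adjw hτ).2, h'.2, ?_⟩
    intro x hx y hy
    cases w with
    | nil => simp [RDGcore.adjw] at hx
    | cons a w =>
      cases w' with
      | nil => simp at hy
      | cons b w' =>
        simp only [RDGcore.adjw, List.getLast?_reverse, List.map_cons, List.head?_cons,
          Option.mem_def, Option.some.injEq] at hx hy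
        subst hx hy
        exact ok_junction a b hne
  · intro hcon
    rw [List.append_eq_nil_iff] at hcon
    obtain ⟨h1, h2⟩ := hcon
    subst h2
    have : w = [] := by simpa [RDGcore.adjw] using h1
    subst this
    exact hne rfl

/-- span of the reduced words with type in `T` -/
def V (τ : A →ₗ[ℂ] ℂ) (S : StarSubalgebra ℂ A) (u : A) (T : Set Ty) : Submodule ℂ A :=
  Submodule.span ℂ {x | ∃ w, Red τ S w ∧ hd w ∈ T ∧ val u w = x}

section

variable {τ : A →ₗ[ℂ] ℂ} {S : StarSubalgebra ℂ A} {u : A}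

theorem mem_V {w : List (Lr A)} {T : Set Ty} (h : Red τ S w) (hT : hd w ∈ T) :
    val u w ∈ V τ S u T := Submodule.subset_span ⟨w, h, hT, rfl⟩

theorem V_mono {T T' : Set Ty} (h : T ⊆ T') : V τ S u T ≤ V τ S u T' :=
  Submodule.span_mono fun _ ⟨w, h1, h2, h3⟩ => ⟨w, h1, h h2, h3⟩

theorem V_ind {T : Set Ty} {W : Submodule ℂ A} {a : A}
    (h : ∀ w, Red τ S w → hd w ∈ T → a * val u w ∈ W) : ∀ x ∈ V τ S u T, a * x ∈ W := by
  intro x hx
  have h1 : V τ S u T ≤ W.comap (LinearMap.mulLeft ℂ a) := by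
    refine Submodule.span_le.2 ?_
    rintro _ ⟨w, h1, h2, rfl⟩
    exact h w h1 h2
  exact h1 hx

theorem orth (hτ : FTS τ) (hfree : ∀ w, Red τ S w → w ≠ [] → τ (val u w) = 0) {T T' : Set Ty}
    (hd' : Disjoint T T') : ∀ x ∈ V τ S u T, ∀ y ∈ V τ S u T', τ (star x * y) = 0 := by
  intro x hx y hy
  have h1 : ∀ w, Red τ S w → hd w ∈ T → ∀ y ∈ V τ S u T', τ (star (val u w) * y) = 0 := by
    intro w h1 h2 y hy
    have h3 : V τ S u T' ≤ LinearMap.ker (τ.comp (LinearMap.mulLeft ℂ (star (val u w)))) := by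
      refine Submodule.span_le.2 ?_
      rintro _ ⟨w', h1', h2', rfl⟩
      have hne : hd w ≠ hd w' := fun he => Set.disjoint_left.1 hd' h2 (he ▸ h2')
      obtain ⟨h4, h5⟩ := h1.junction hτ h1' hne
      have h6 := hfree _ h4 h5
      rw [val_append, val_adjw] at h6
      exact h6
    exact h3 hy
  induction hx using Submodule.span_induction with
  | mem x hx =>
    obtain ⟨w, h2, h3, rfl⟩ := hx
    exact h1 w h2 h3 y hy
  | zero => simp
  | add x x' _ _ ih ih' => rw [star_add, add_mul, map_add, ih, ih', add_zero]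
  | smul c x _ ih => rw [star_smul, smul_mul_assoc, map_smul, ih, smul_zero]

theorem split {x : A} (hx : x ∈ V τ S u Set.univ) (T : Set Ty) :
    ∃ y ∈ V τ S u T, ∃ z ∈ V τ S u Tᶜ, x = y + z := by
  have h1 : V τ S u Set.univ ≤ V τ S u T ⊔ V τ S u Tᶜ := by
    refine Submodule.span_le.2 ?_
    rintro _ ⟨w, h1, -, rfl⟩
    by_cases h : hd w ∈ T
    · exact Submodule.mem_sup_left (mem_V h1 h)
    · exact Submodule.mem_sup_right (mem_V h1 h)
  obtain ⟨y, hy, z, hz, h2⟩ := Submodule.mem_sup.1 (h1 hx)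
  exact ⟨y, hy, z, hz, h2.symm⟩

theorem Red.cons_p {w : List (Lr A)} (h : Red τ S w) (h1 : hd w ≠ Ty.m) :
    Red τ S (Lr.p :: w) := by
  refine ⟨?_, ?_⟩
  · intro x hx
    rcases List.mem_cons.1 hx with rfl | hx
    · trivial
    · exact h.1 x hx
  · cases w with
    | nil => simp
    | cons y w =>
      rw [List.isChain_cons_cons]
      refine ⟨?_, h.2⟩
      cases y <;> simp_all [ok, hd, ty]

theorem Red.cons_m {w : List (Lr A)} (h : Red τ S w) (h1 : hd w ≠ Ty.p) :
    Red τ S (Lr.m :: w) := by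
  refine ⟨?_, ?_⟩
  · intro x hx
    rcases List.mem_cons.1 hx with rfl | hx
    · trivial
    · exact h.1 x hx
  · cases w with
    | nil => simp
    | cons y w =>
      rw [List.isChain_cons_cons]
      refine ⟨?_, h.2⟩
      cases y <;> simp_all [ok, hd, ty]

theorem Red.cons_s {w : List (Lr A)} (h : Red τ S w) (h1 : hd w ≠ Ty.s) {a : A} (ha : a ∈ S)
    (ha0 : τ a = 0) : Red τ S (Lr.s a :: w) := by
  refine ⟨?_, ?_⟩
  · intro x hx
    rcases List.mem_cons.1 hx with rfl | hx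
    · exact ⟨ha, ha0⟩
    · exact h.1 x hx
  · cases w with
    | nil => simp
    | cons y w =>
      rw [List.isChain_cons_cons]
      refine ⟨?_, h.2⟩
      cases y <;> simp_all [ok, hd, ty]

theorem Red.tail {x : Lr A} {w : List (Lr A)} (h : Red τ S (x :: w)) : Red τ S w :=
  ⟨fun y hy => h.1 y (List.mem_cons_of_mem _ hy), h.2.tail⟩

/-- `u * V_c ⊆ V_+` -/
theorem u_mul : ∀ x ∈ V τ S u {Ty.m}ᶜ, u * x ∈ V τ S u {Ty.p} :=
  V_ind fun w h1 h2 => by
    have h3 := mem_V (u := u) (T := {Ty.p}) (h1.cons_p h2) rfl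
    simpa [vl] using h3

theorem v_mul : ∀ x ∈ V τ S u {Ty.p}ᶜ, star u * x ∈ V τ S u {Ty.m} :=
  V_ind fun w h1 h2 => by
    have h3 := mem_V (u := u) (T := {Ty.m}) (h1.cons_m h2) rfl
    simpa [vl] using h3

theorem u_mul' (hu1 : u * star u = 1) : ∀ x ∈ V τ S u {Ty.m}, u * x ∈ V τ S u Set.univ :=
  V_ind fun w h1 h2 => by
    cases w with
    | nil => cases h2
    | cons y w =>
      cases y with
      | p => cases h2
      | s a => cases h2
      | m =>
        rw [val_cons, vl, ← mul_assoc, hu1, one_mul]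
        exact mem_V h1.tail trivial

theorem v_mul' (hu1 : star u * u = 1) : ∀ x ∈ V τ S u {Ty.p}, star u * x ∈ V τ S u Set.univ :=
  V_ind fun w h1 h2 => by
    cases w with
    | nil => cases h2
    | cons y w =>
      cases y with
      | m => cases h2
      | s a => cases h2
      | p =>
        rw [val_cons, vl, ← mul_assoc, hu1, one_mul]
        exact mem_V h1.tail trivial

theorem u_mul_univ (hu1 : u * star u = 1) :
    ∀ x ∈ V τ S u Set.univ, u * x ∈ V τ S u Set.univ := by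
  intro x hx
  obtain ⟨y, hy, z, hz, rfl⟩ := split hx {Ty.m}
  rw [mul_add]
  exact add_mem (u_mul' hu1 y hy) (V_mono (Set.subset_univ _) (u_mul z hz))

theorem v_mul_univ (hu1 : star u * u = 1) :
    ∀ x ∈ V τ S u Set.univ, star u * x ∈ V τ S u Set.univ := by
  intro x hx
  obtain ⟨y, hy, z, hz, rfl⟩ := split hx {Ty.p}
  rw [mul_add]
  exact add_mem (v_mul' hu1 y hy) (V_mono (Set.subset_univ _) (v_mul z hz))

/-- `S₀ * M ⊆ V_S` -/
theorem s_mul {a : A} (ha : a ∈ S) (ha0 : τ a = 0) :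
    ∀ x ∈ V τ S u {Ty.s}ᶜ, a * x ∈ V τ S u {Ty.s} :=
  V_ind fun w h1 h2 => by
    have h3 := mem_V (u := u) (T := {Ty.s}) (h1.cons_s h2 ha ha0) rfl
    simpa [vl] using h3

theorem sub_tr (hτ : FTS τ) {a : A} (ha : a ∈ S) :
    a - algebraMap ℂ A (τ a) ∈ S ∧ τ (a - algebraMap ℂ A (τ a)) = 0 := by
  refine ⟨sub_mem ha (algebraMap_mem S _), ?_⟩
  rw [Algebra.algebraMap_eq_smul_one, map_sub, map_smul, hτ.one]
  simp

/-- `b * V_T ⊆ V_T + V_S` if `T` does not contain `s` -/
theorem S_mul (hτ : FTS τ) {a : A} (ha : a ∈ S) {T : Set Ty} (hT : Ty.s ∉ T) :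
    ∀ x ∈ V τ S u T, a * x ∈ V τ S u (T ∪ {Ty.s}) := by
  intro x hx
  obtain ⟨h1, h2⟩ := sub_tr hτ ha
  have h3 : a * x = τ a • x + (a - algebraMap ℂ A (τ a)) * x := by
    rw [sub_mul, Algebra.algebraMap_eq_smul_one, smul_mul_assoc, one_mul]
    abel
  rw [h3]
  refine add_mem (Submodule.smul_mem _ _ (V_mono Set.subset_union_left hx)) ?_
  refine V_mono Set.subset_union_right (s_mul h1 h2 x (V_mono ?_ hx))
  intro t ht hts
  rw [Set.mem_singleton_iff] at hts
  subst hts
  exact hT ht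

theorem S_mul_univ (hτ : FTS τ) {a : A} (ha : a ∈ S) :
    ∀ x ∈ V τ S u Set.univ, a * x ∈ V τ S u Set.univ := by
  intro x hx
  obtain ⟨y, hy, z, hz, rfl⟩ := split hx {Ty.s}
  rw [mul_add]
  refine add_mem ?_ (V_mono (Set.subset_univ _) (S_mul hτ ha (T := {Ty.s}ᶜ) (by simp) z hz))
  refine V_ind (T := {Ty.s}) (W := V τ S u Set.univ) (a := a) ?_ y hy
  intro w h1 h2
  cases w with
  | nil => cases h2
  | cons y w =>
    cases y with
    | p => cases h2
    | m => cases h2
    | s a' =>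
      rw [val_cons, vl, ← mul_assoc]
      have h3 : a * a' ∈ S := mul_mem ha (h1.1 _ List.mem_cons_self).1
      refine V_mono (Set.subset_univ _) (S_mul hτ h3 (T := {Ty.s}ᶜ) (by simp) _
        (mem_V h1.tail ?_))
      intro hcon
      rw [Set.mem_singleton_iff] at hcon
      cases w with
      | nil => cases hcon
      | cons y w =>
        cases y with
        | p => cases hcon
        | m => cases hcon
        | s a'' =>
          have h4 := h1.2
          rw [List.isChain_cons_cons] at h4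
          exact h4.1

theorem one_mem_V : (1 : A) ∈ V τ S u Set.univ := by
  have h1 : Red τ S ([] : List (Lr A)) := ⟨fun x hx => absurd hx List.not_mem_nil, List.isChain_nil⟩
  have := mem_V (u := u) (T := Set.univ) h1 trivial
  simpa using this

/-! ### the 2-norm -/

theorem nt_zero_or (hτ : FTS τ) (x : A) : nt τ x ^ 2 = (τ (star x * x)).re :=
  Real.sq_sqrt (hτ.nonneg x)

/-- (1): `‖b ζ‖₂ = ‖b‖₂ ‖ζ‖₂` for `ζ ∈ M` -/
theorem nt_mul_M (hτ : FTS τ) (hT1 : S_T1)
    (hfree : ∀ w, Red τ S w → w ≠ [] → τ (val u w) = 0) {b : A}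
    (hb : b ∈ S) {ζ : A} (hζ : ζ ∈ V τ S u {Ty.s}ᶜ) : nt τ (b * ζ) = nt τ b * nt τ ζ := by
  obtain ⟨-, -, -, -, -, -, hsq, h0⟩ := hT1 A τ hτ
  have hbb : star b * b ∈ S := mul_mem (star_mem hb) hb
  obtain ⟨h1, h2⟩ := sub_tr hτ hbb
  have h3 := s_mul (u := u) h1 h2 ζ hζ
  have h4 := orth hτ hfree (T := {Ty.s}ᶜ) (T' := {Ty.s}) disjoint_compl_left ζ hζ _ h3
  have h5 : star (b * ζ) * (b * ζ) = star ζ * ((star b * b - algebraMap ℂ A (τ (star b * b))) * ζ)
      + τ (star b * b) • (star ζ * ζ) := by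
    rw [star_mul, sub_mul, mul_sub, Algebra.algebraMap_eq_smul_one, smul_mul_assoc, one_mul,
      mul_smul_comm]
    simp only [mul_assoc, sub_add_cancel]
  have h6 : τ (star (b * ζ) * (b * ζ)) = τ (star b * b) * τ (star ζ * ζ) := by
    rw [h5, map_add, h4, zero_add, map_smul, smul_eq_mul]
  rw [← hsq, ← hsq, ← hsq, ← mul_pow] at h6
  have h7 : nt τ (b * ζ) ^ 2 = (nt τ b * nt τ ζ) ^ 2 := by exact_mod_cast h6
  exact (sq_eq_sq₀ (h0 _) (mul_nonneg (h0 _) (h0 _))).1 h7

theorem nt_u_mul (hu1 : star u * u = 1) (x : A) : nt τ (u * x) = nt τ x := by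
  unfold nt
  congr 3
  rw [star_mul, mul_assoc, ← mul_assoc (star u), hu1, one_mul]

/-- decomposition of `b α` -/
theorem decomp (hτ : FTS τ) (hT1 : S_T1)
    (hfree : ∀ w, Red τ S w → w ≠ [] → τ (val u w) = 0) {b : A}
    (hb : b ∈ S) {α : A} (hα : α ∈ V τ S u Set.univ) :
    ∃ p ∈ V τ S u {Ty.m}, ∃ c ∈ V τ S u {Ty.m}ᶜ, b * α = p + c ∧ nt τ p ≤ nt τ b * nt τ α ∧
      nt τ c ≤ ‖b‖ * nt τ α := by
  obtain ⟨hCS, -, hop, hst, -, -, hsq, h0⟩ := hT1 A τ hτ
  obtain ⟨p, hp, c, hc, hpc⟩ := split (S_mul_univ hτ hb α hα) {Ty.m}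
  have h1 : τ (star p * c) = 0 := orth hτ hfree disjoint_compl_right p hp c hc
  have h2 : τ (star c * p) = 0 := orth hτ hfree disjoint_compl_left c hc p hp
  refine ⟨p, hp, c, hc, hpc, ?_, ?_⟩
  · have h3 : τ (star p * p) = τ (star (star b * p) * α) := by
      have : star (star b * p) * α = star p * p + star p * c := by
        rw [star_mul, star_star, mul_assoc, hpc, mul_add]
      rw [this, map_add, h1, add_zero]
    have h4 : nt τ (star b * p) = nt τ b * nt τ p := by
      rw [nt_mul_M hτ hT1 hfree (star_mem hb) (V_mono (by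
        intro t ht
        rw [Set.mem_singleton_iff] at ht
        subst ht
        simp) hp), hst]
    have h5 : nt τ p ^ 2 ≤ nt τ b * nt τ p * nt τ α := by
      calc nt τ p ^ 2 = ‖τ (star p * p)‖ := by
            rw [← hsq]
            simp
        _ = ‖τ (star (star b * p) * α)‖ := by rw [h3]
        _ ≤ nt τ (star b * p) * nt τ α := hCS _ _
        _ = _ := by rw [h4]
    rcases (h0 p).eq_or_lt with h6 | h6
    · rw [← h6]
      exact mul_nonneg (h0 _) (h0 _)
    · have h7 : nt τ p * nt τ p ≤ nt τ p * (nt τ b * nt τ α) := by nlinarith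
      exact le_of_mul_le_mul_left h7 h6
  · refine le_trans ?_ (hop b α)
    have h3 : τ (star (b * α) * (b * α)) = τ (star p * p) + τ (star c * c) := by
      rw [hpc, star_add, add_mul, mul_add, mul_add, map_add, map_add, map_add, h1, h2]
      ring
    have h4 : nt τ (b * α) ^ 2 = nt τ p ^ 2 + nt τ c ^ 2 := by
      rw [← hsq, ← hsq, ← hsq] at h3
      exact_mod_cast h3
    have h5 : nt τ c ^ 2 ≤ nt τ (b * α) ^ 2 := by
      have := sq_nonneg (nt τ p)
      linarith
    exact le_of_sq_le_sq h5 (h0 _)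

/-- the main estimate on `V` -/
theorem main_V (hτ : FTS τ) (hT1 : S_T1)
    (hfree : ∀ w, Red τ S w → w ≠ [] → τ (val u w) = 0) (hu1 : star u * u = 1)
    (hu2 : u * star u = 1) {b : A} (hb : b ∈ S) {ξ : A} (hξ : ξ ∈ V τ S u Set.univ) (k : ℕ) :
    ∃ α ∈ V τ S u Set.univ, ∃ r ∈ V τ S u {Ty.p}, (u * b) ^ k * ξ = α + r ∧
      nt τ α ≤ nt τ b ^ k * nt τ ξ ∧ nt τ r ≤ k * ‖b‖ * nt τ b ^ (k - 1) * nt τ ξ := by
  obtain ⟨hCS, hadd, hop, hst, -, hle, hsq, h0⟩ := hT1 A τ hτ
  induction k with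
  | zero =>
    refine ⟨ξ, hξ, 0, zero_mem _, by simp, by simp, ?_⟩
    have : nt τ (0 : A) = 0 := by simp [nt]
    rw [this]
    simp
  | succ k ih =>
    obtain ⟨α, hα, r, hr, h1, h2, h3⟩ := ih
    obtain ⟨p, hp, c, hc, h4, h5, h6⟩ := decomp hτ hT1 hfree hb hα
    have hbr : b * r ∈ V τ S u {Ty.m}ᶜ := by
      refine V_mono ?_ (S_mul hτ hb (T := {Ty.p}) (by simp) r hr)
      intro t ht
      rcases ht with ht | ht
      · rw [Set.mem_singleton_iff] at ht
        subst ht
        simp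
      · rw [Set.mem_singleton_iff] at ht
        subst ht
        simp
    refine ⟨u * p, u_mul_univ hu2 _ (V_mono (Set.subset_univ _) hp), u * c + u * (b * r),
      add_mem (u_mul c hc) (u_mul _ hbr), ?_, ?_, ?_⟩
    · rw [pow_succ', mul_assoc, h1, mul_add, mul_assoc, h4, mul_assoc, mul_add]
      abel
    · rw [nt_u_mul hu1]
      calc nt τ p ≤ nt τ b * nt τ α := h5
        _ ≤ nt τ b * (nt τ b ^ k * nt τ ξ) := mul_le_mul_of_nonneg_left h2 (h0 _)
        _ = nt τ b ^ (k + 1) * nt τ ξ := by ring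
    · have h7 : nt τ (b * r) = nt τ b * nt τ r := by
        refine nt_mul_M hτ hT1 hfree hb (V_mono ?_ hr)
        intro t ht
        rw [Set.mem_singleton_iff] at ht
        subst ht
        simp
      have h8 : nt τ b * (nt τ b ^ (k - 1) * (k : ℝ)) = nt τ b ^ k * k := by
        cases k with
        | zero => simp
        | succ k => simp only [Nat.add_sub_cancel]; ring
      calc nt τ (u * c + u * (b * r)) ≤ nt τ (u * c) + nt τ (u * (b * r)) := hadd _ _
        _ = nt τ c + nt τ b * nt τ r := by rw [nt_u_mul hu1, nt_u_mul hu1, h7]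
        _ ≤ ‖b‖ * nt τ α + nt τ b * (k * ‖b‖ * nt τ b ^ (k - 1) * nt τ ξ) :=
            add_le_add h6 (mul_le_mul_of_nonneg_left h3 (h0 _))
        _ ≤ ‖b‖ * (nt τ b ^ k * nt τ ξ) + nt τ b * (k * ‖b‖ * nt τ b ^ (k - 1) * nt τ ξ) :=
            add_le_add (mul_le_mul_of_nonneg_left h2 (norm_nonneg _)) le_rfl
        _ = ‖b‖ * (nt τ b ^ k * nt τ ξ) + (nt τ b * (nt τ b ^ (k - 1) * (k : ℝ))) * ‖b‖ * nt τ ξ := by
            ring
        _ = ((k + 1 : ℕ) : ℝ) * ‖b‖ * nt τ b ^ (k + 1 - 1) * nt τ ξ := by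
            rw [h8, Nat.add_sub_cancel]
            push_cast
            ring

/-- the algebra generated by `S` and `u` is contained in `V` -/
theorem adjoin_le_V (hτ : FTS τ) (hu1 : star u * u = 1) (hu2 : u * star u = 1) {x : A}
    (hx : x ∈ StarAlgebra.adjoin ℂ ((S : Set A) ∪ {u})) :
    ∀ y ∈ V τ S u Set.univ, x * y ∈ V τ S u Set.univ := by
  have key : (∀ y ∈ V τ S u Set.univ, x * y ∈ V τ S u Set.univ) ∧
      (∀ y ∈ V τ S u Set.univ, star x * y ∈ V τ S u Set.univ) := by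
    induction hx using StarAlgebra.adjoin_induction with
    | mem x hx =>
      rcases hx with hx | hx
      · exact ⟨S_mul_univ hτ hx, S_mul_univ hτ (star_mem hx)⟩
      · rw [Set.mem_singleton_iff] at hx
        subst hx
        exact ⟨u_mul_univ hu2, v_mul_univ hu1⟩
    | algebraMap r =>
      refine ⟨fun y hy => ?_, fun y hy => ?_⟩
      · rw [Algebra.algebraMap_eq_smul_one, smul_mul_assoc, one_mul]
        exact Submodule.smul_mem _ _ hy
      · rw [Algebra.algebraMap_eq_smul_one, star_smul, star_one, smul_mul_assoc, one_mul]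
        exact Submodule.smul_mem _ _ hy
    | add x x' _ _ ih ih' =>
      refine ⟨fun y hy => ?_, fun y hy => ?_⟩
      · rw [add_mul]
        exact add_mem (ih.1 y hy) (ih'.1 y hy)
      · rw [star_add, add_mul]
        exact add_mem (ih.2 y hy) (ih'.2 y hy)
    | mul x x' _ _ ih ih' =>
      refine ⟨fun y hy => ?_, fun y hy => ?_⟩
      · rw [mul_assoc]
        exact ih.1 _ (ih'.1 y hy)
      · rw [star_mul, mul_assoc]
        exact ih'.2 _ (ih.2 y hy)
    | star x _ ih =>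
      refine ⟨ih.2, ?_⟩
      rw [star_star]
      exact ih.1
  exact key.1

end

/-- `T2` relative to a closed `*`-subalgebra (adapted from the proof of `T2` by helper311) -/
theorem t2_closed {τ : A →ₗ[ℂ] ℂ} (hτ : FTS τ) (C : StarSubalgebra ℂ A)
    (hC : IsClosed (C : Set A)) (x : A) (hx : x ∈ C) (B : ℝ) (hB : 0 ≤ B)
    (h : ∀ ξ ∈ C, nt τ (x * ξ) ≤ B * nt τ ξ) : ‖x‖ ≤ B := by
  by_contra hcon
  push Not at hcon
  have hx0 : x ≠ 0 := by
    rintro rfl
    rw [norm_zero] at hcon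
    linarith
  have : Nontrivial A := ⟨x, 0, hx0⟩
  obtain ⟨S, hSd⟩ : ∃ S : A, S = star x * x := ⟨_, rfl⟩
  have hSC : S ∈ C := by rw [hSd]; exact mul_mem (star_mem hx) hx
  have hS : IsSelfAdjoint S := by rw [hSd]; exact IsSelfAdjoint.star_mul_self x
  have hSn : ‖S‖ = ‖x‖ * ‖x‖ := by rw [hSd]; exact CStarRing.norm_star_mul_self
  obtain ⟨c, hc1, hc2⟩ : ∃ c, B ^ 2 < c ∧ c < ‖S‖ := exists_between (by nlinarith)
  have hmem : ‖S‖ ∈ spectrum ℝ S := by
    rcases CStarAlgebra.norm_or_neg_norm_mem_spectrum hS with h1 | h1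
    · exact h1
    · have h2 : 0 ≤ -‖S‖ := by
        rw [hSd] at h1
        have := spectrum_star_mul_self_nonneg _ h1
        rw [hSd]
        exact this
      have h3 : ‖S‖ = 0 := le_antisymm (by linarith) (norm_nonneg _)
      rw [h3] at h1 ⊢
      simpa using h1
  obtain ⟨f, hfd⟩ : ∃ f : ℝ → ℝ, f = fun l => max 0 (l - c) := ⟨_, rfl⟩
  obtain ⟨g, hgd⟩ : ∃ g : ℝ → ℝ, g = fun l => f l * Real.sqrt (f l) := ⟨_, rfl⟩
  have hf : Continuous f := by rw [hfd]; fun_prop
  have hg : Continuous g := by rw [hgd]; fun_prop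
  have hf0 : ∀ l, 0 ≤ f l := by intro l; rw [hfd]; exact le_max_left _ _
  obtain ⟨ξ, hξd⟩ : ∃ ξ : A, ξ = cfc f S := ⟨_, rfl⟩
  obtain ⟨y, hyd⟩ : ∃ y : A, y = cfc g S := ⟨_, rfl⟩
  have hξC : ξ ∈ C := by
    rw [hξd]
    exact cfc_mem (𝕜' := ℂ) (s := C) (hs := hC) f hSC
  have hξs : star ξ = ξ := by rw [hξd]; exact (cfc_predicate f S).star_eq
  have hys : star y = y := by rw [hyd]; exact (cfc_predicate g S).star_eq
  have hid : cfc (fun l : ℝ => l) S = S := cfc_id' ℝ S
  have hpt : (fun l : ℝ => f l * l * f l) = fun l => g l * g l + c * (f l * f l) := by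
    funext l
    have h1 : g l * g l = f l * f l * f l := by
      rw [hgd]
      have := Real.mul_self_sqrt (hf0 l)
      calc f l * √(f l) * (f l * √(f l)) = f l * f l * (√(f l) * √(f l)) := by ring
        _ = _ := by rw [this]
    rw [h1]
    rcases le_total c l with h2 | h2
    · have h3 : f l = l - c := by rw [hfd]; exact max_eq_right (by linarith)
      rw [h3]; ring
    · have h3 : f l = 0 := by rw [hfd]; exact max_eq_left (by linarith)
      rw [h3]; ring
  have key : ξ * S * ξ = y * y + (c : ℂ) • (ξ * ξ) := by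
    have e1 : ξ * S * ξ = cfc (fun l : ℝ => f l * l * f l) S := by
      rw [cfc_mul (fun l : ℝ => f l * l) f S (by fun_prop) (by fun_prop),
        cfc_mul f (fun l : ℝ => l) S (by fun_prop) (by fun_prop), hid, ← hξd]
    have e2 : y * y = cfc (fun l : ℝ => g l * g l) S := by
      rw [cfc_mul g g S (by fun_prop) (by fun_prop), ← hyd]
    have e3 : (c : ℂ) • (ξ * ξ) = cfc (fun l : ℝ => c * (f l * f l)) S := by
      rw [cfc_const_mul c (fun l : ℝ => f l * f l) S (by fun_prop),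
        cfc_mul f f S (by fun_prop) (by fun_prop), ← hξd]
      exact Complex.coe_smul c (ξ * ξ)
    rw [e1, e2, e3, hpt, cfc_add (a := S) (fun l : ℝ => g l * g l) (fun l : ℝ => c * (f l * f l))
      (by fun_prop) (by fun_prop)]
  have n1 : nt τ (x * ξ) ^ 2 = (τ (ξ * S * ξ)).re := by
    unfold nt
    rw [Real.sq_sqrt (hτ.nonneg _)]
    congr 2
    rw [star_mul, hξs, hSd]
    simp only [mul_assoc]
  have n2 : nt τ ξ ^ 2 = (τ (ξ * ξ)).re := by
    unfold nt
    rw [Real.sq_sqrt (hτ.nonneg _), hξs]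
  have n3 : nt τ (x * ξ) ^ 2 ≤ B ^ 2 * nt τ ξ ^ 2 := by
    rw [← mul_pow]
    exact pow_le_pow_left₀ (Real.sqrt_nonneg _) (h ξ hξC) 2
  have n4 : (τ (ξ * S * ξ)).re = (τ (star y * y)).re + c * (τ (ξ * ξ)).re := by
    rw [key, map_add, map_smul, hys]
    simp
  have n5 := hτ.nonneg y
  have n6 : (c - B ^ 2) * (τ (ξ * ξ)).re ≤ 0 := by
    rw [n1, n4, n2] at n3
    linarith
  have n7 : 0 ≤ (τ (ξ * ξ)).re := by
    have := hτ.nonneg ξ
    rwa [hξs] at this
  have n8 : (τ (ξ * ξ)).re = 0 := by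
    have : 0 < c - B ^ 2 := by linarith
    nlinarith
  have hξ0 : ξ = 0 := by
    apply hτ.faith
    rw [hξs]
    exact n8
  have heq : cfc f S = cfc (fun _ : ℝ => (0 : ℝ)) S := by
    rw [← hξd, hξ0]
    exact (cfc_const_zero ℝ S).symm
  have hon := (cfc_eq_cfc_iff_eqOn (R := ℝ) (a := S) (f := f) (g := fun _ => (0:ℝ)) hS
    (by fun_prop) (by fun_prop)).mp heq
  have h1 := hon hmem
  rw [hfd] at h1
  simp only at h1
  rw [max_eq_right (by linarith)] at h1
  linarith

/-- the norm estimate -/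
theorem rdg {τ : A →ₗ[ℂ] ℂ} (hτ : FTS τ) (hT1 : S_T1) (S : StarSubalgebra ℂ A) (u : A)
    (hu1 : star u * u = 1) (hu2 : u * star u = 1)
    (hfree : ∀ w, Red τ S w → w ≠ [] → τ (val u w) = 0) (b : A) (hb : b ∈ S) (k : ℕ)
    (hk : 1 ≤ k) : ‖(u * b) ^ k‖ ≤ (k + 1) * ‖b‖ * nt τ b ^ (k - 1) := by
  obtain ⟨hCS, hadd, hop, hst, -, hle, hsq, h0⟩ := hT1 A τ hτ
  set C := (StarAlgebra.adjoin ℂ ((S : Set A) ∪ {u})).topologicalClosure with hC
  have hCc : IsClosed (C : Set A) := StarSubalgebra.isClosed_topologicalClosure _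
  have hxC : (u * b) ^ k ∈ C := by
    refine pow_mem (mul_mem ?_ ?_) k
    · exact StarSubalgebra.le_topologicalClosure _ (StarAlgebra.subset_adjoin _ _ (by simp))
    · exact StarSubalgebra.le_topologicalClosure _
        (StarAlgebra.subset_adjoin _ _ (Or.inl hb))
  have hB : 0 ≤ (k + 1) * ‖b‖ * nt τ b ^ (k - 1) := by
    have := h0 b
    positivity
  refine t2_closed hτ C hCc _ hxC _ hB ?_
  -- the estimate on the algebra
  have h1 : ∀ ξ ∈ StarAlgebra.adjoin ℂ ((S : Set A) ∪ {u}),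
      nt τ ((u * b) ^ k * ξ) ≤ (k + 1) * ‖b‖ * nt τ b ^ (k - 1) * nt τ ξ := by
    intro ξ hξ
    have hξV : ξ ∈ V τ S u Set.univ := by
      have := adjoin_le_V hτ hu1 hu2 hξ 1 one_mem_V
      rwa [mul_one] at this
    obtain ⟨α, -, r, -, h2, h3, h4⟩ := main_V hτ hT1 hfree hu1 hu2 hb hξV k
    have h5 : nt τ b ^ k ≤ ‖b‖ * nt τ b ^ (k - 1) := by
      obtain ⟨j, rfl⟩ : ∃ j, k = j + 1 := ⟨k - 1, by omega⟩
      rw [Nat.add_sub_cancel, pow_succ']
      exact mul_le_mul_of_nonneg_right (hle b) (pow_nonneg (h0 b) _)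
    calc nt τ ((u * b) ^ k * ξ) = nt τ (α + r) := by rw [h2]
      _ ≤ nt τ α + nt τ r := hadd _ _
      _ ≤ nt τ b ^ k * nt τ ξ + k * ‖b‖ * nt τ b ^ (k - 1) * nt τ ξ := add_le_add h3 h4
      _ ≤ ‖b‖ * nt τ b ^ (k - 1) * nt τ ξ + k * ‖b‖ * nt τ b ^ (k - 1) * nt τ ξ :=
          add_le_add (mul_le_mul_of_nonneg_right h5 (h0 ξ)) le_rfl
      _ = _ := by ring
  -- continuity
  have hτc : Continuous τ := by
    refine AddMonoidHomClass.continuous_of_bound τ 1 ?_
    intro x
    rw [one_mul]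
    exact hτ.bound x
  have hntc : Continuous (nt τ) := by
    unfold nt
    fun_prop
  intro ξ hξ
  have hclosed : IsClosed {ξ : A | nt τ ((u * b) ^ k * ξ) ≤
      (k + 1) * ‖b‖ * nt τ b ^ (k - 1) * nt τ ξ} :=
    isClosed_le (hntc.comp (by fun_prop)) (by fun_prop)
  have h2 : ξ ∈ closure ((StarAlgebra.adjoin ℂ ((S : Set A) ∪ {u}) : StarSubalgebra ℂ A) : Set A) := by
    have : (C : Set A) = closure
        ((StarAlgebra.adjoin ℂ ((S : Set A) ∪ {u}) : StarSubalgebra ℂ A) : Set A) :=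
      StarSubalgebra.topologicalClosure_coe _
    rw [← this]
    exact hξ
  exact closure_minimal (fun x hx => h1 x hx) hclosed h2

end Pool.Agent.H911R5.RDGcore
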