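import Mathlib
import Pool.Agent.H911R5.RDGcore

/-!
# Norm estimate for a free Haar unitary (helper911): grouping the letters
-/

set_option autoImplicit false

noncomputable section

namespace Pool.Agent.H911R5.RDGcore

open Pool.Agent.H923R2.FP
open scoped ComplexConjugate

variable {A : Type} [CStarAlgebra A]

/-- good syllables -/
def G (τ : A →ₗ[ℂ] ℂ) (S : StarSubalgebra ℂ A) (u : A) (z : Bool × A) : Prop :=
  if z.1 then ∃ n : ℕ, 1 ≤ n ∧ (z.2 = u ^ n ∨ z.2 = star u ^ n) else z.2 ∈ S ∧ τ z.2 = 0

/-- good list not starting with a power of `u` -/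
def Gd (τ : A →ₗ[ℂ] ℂ) (S : StarSubalgebra ℂ A) (u : A) (l : List (Bool × A)) : Prop :=
  (∀ z ∈ l, G τ S u z) ∧ l.IsChain (fun x y => x.1 ≠ y.1) ∧ ∀ z ∈ l.head?, z.1 = false

variable {τ : A →ₗ[ℂ] ℂ} {S : StarSubalgebra ℂ A} {u : A}

theorem Gd.nil : Gd τ S u [] :=
  ⟨fun z hz => absurd hz List.not_mem_nil, List.isChain_nil, fun z hz => by simp at hz⟩

/-- append a power -/
theorem Gd.cons_true {l : List (Bool × A)} (h : Gd τ S u l) {x : A} {n : ℕ} (hn : 1 ≤ n)
    (hx : x = u ^ n ∨ x = star u ^ n) :
    (∀ z ∈ (true, x) :: l, G τ S u z) ∧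
      ((true, x) :: l : List (Bool × A)).IsChain (fun x y => x.1 ≠ y.1) := by
  refine ⟨?_, ?_⟩
  · intro z hz
    rcases List.mem_cons.1 hz with rfl | hz
    · exact ⟨n, hn, hx⟩
    · exact h.1 z hz
  · cases l with
    | nil => simp
    | cons y l =>
      rw [List.isChain_cons_cons]
      refine ⟨?_, h.2.1⟩
      have := h.2.2 y (by simp)
      rw [this]
      simp

/-- prepend an element of `S` -/
theorem Gd.cons_false {l : List (Bool × A)} (h : ∀ z ∈ l, G τ S u z)
    (h' : l.IsChain (fun x y => x.1 ≠ y.1)) (hh : ∀ z ∈ l.head?, z.1 = true) {a : A}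
    (ha : a ∈ S) (ha0 : τ a = 0) : Gd τ S u ((false, a) :: l) := by
  refine ⟨?_, ?_, ?_⟩
  · intro z hz
    rcases List.mem_cons.1 hz with rfl | hz
    · simp [G, ha, ha0]
    · exact h z hz
  · cases l with
    | nil => simp
    | cons y l =>
      rw [List.isChain_cons_cons]
      refine ⟨?_, h'⟩
      have := hh y (by simp)
      rw [this]
      simp
  · intro z hz
    simp only [List.head?_cons, Option.mem_def, Option.some.injEq] at hz
    rw [← hz]

/-- grouping -/
theorem grouping : ∀ w : List (Lr A), Red τ S w →
    ((hd w = Ty.z ∨ hd w = Ty.s) → ∃ l : List (Bool × A), Gd τ S u l ∧ val u w = (l.map Prod.snd).prod ∧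
      (w ≠ [] → l ≠ [])) ∧
    (hd w = Ty.p → ∃ n : ℕ, 1 ≤ n ∧ ∃ l : List (Bool × A), Gd τ S u l ∧ val u w = u ^ n * (l.map Prod.snd).prod) ∧
    (hd w = Ty.m → ∃ n : ℕ, 1 ≤ n ∧ ∃ l : List (Bool × A), Gd τ S u l ∧
      val u w = star u ^ n * (l.map Prod.snd).prod) := by
  intro w
  induction w with
  | nil =>
    intro _
    refine ⟨fun _ => ⟨[], Gd.nil, by simp, fun h => absurd rfl h⟩, fun h => ?_, fun h => ?_⟩
    · cases h
    · cases h
  | cons x w ih =>
    intro hr
    obtain ⟨i1, i2, i3⟩ := ih hr.tail
    have hok : ∀ y ∈ w.head?, ok x y := by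
      intro y hy
      cases w with
      | nil => simp at hy
      | cons y' w =>
        simp only [List.head?_cons, Option.mem_def, Option.some.injEq] at hy
        subst hy
        have := hr.2
        rw [List.isChain_cons_cons] at this
        exact this.1
    cases x with
    | p =>
      refine ⟨fun h => ?_, fun _ => ?_, fun h => ?_⟩
      · rcases h with h | h <;> cases h
      · by_cases h1 : hd w = Ty.p
        · obtain ⟨n, hn, l, hl, hv⟩ := i2 h1
          refine ⟨n + 1, by omega, l, hl, ?_⟩
          rw [val_cons, hv, vl, pow_succ', mul_assoc]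
        · have h2 : hd w = Ty.z ∨ hd w = Ty.s := by
            cases w with
            | nil => exact Or.inl rfl
            | cons y w =>
              cases y with
              | p => exact absurd rfl h1
              | m => exact (hok Lr.m (by simp)).elim
              | s a => exact Or.inr rfl
          obtain ⟨l, hl, hv, -⟩ := i1 h2
          exact ⟨1, le_rfl, l, hl, by rw [val_cons, hv, vl, pow_one]⟩
      · cases h
    | m =>
      refine ⟨fun h => ?_, fun h => ?_, fun _ => ?_⟩
      · rcases h with h | h <;> cases h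
      · cases h
      · by_cases h1 : hd w = Ty.m
        · obtain ⟨n, hn, l, hl, hv⟩ := i3 h1
          refine ⟨n + 1, by omega, l, hl, ?_⟩
          rw [val_cons, hv, vl, pow_succ', mul_assoc]
        · have h2 : hd w = Ty.z ∨ hd w = Ty.s := by
            cases w with
            | nil => exact Or.inl rfl
            | cons y w =>
              cases y with
              | m => exact absurd rfl h1
              | p => exact (hok Lr.p (by simp)).elim
              | s a => exact Or.inr rfl
          obtain ⟨l, hl, hv, -⟩ := i1 h2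
          exact ⟨1, le_rfl, l, hl, by rw [val_cons, hv, vl, pow_one]⟩
    | s a =>
      have ha : a ∈ S ∧ τ a = 0 := hr.1 (Lr.s a) List.mem_cons_self
      refine ⟨fun _ => ?_, fun h => ?_, fun h => ?_⟩
      · cases w with
        | nil =>
          refine ⟨[(false, a)], Gd.cons_false (l := []) (fun z hz => absurd hz List.not_mem_nil)
            List.isChain_nil (fun z hz => by simp at hz) ha.1 ha.2, by simp [vl], by simp⟩
        | cons y w =>
          cases y with
          | p =>
            obtain ⟨n, hn, l, hl, hv⟩ := i2 rfl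
            obtain ⟨h1, h2⟩ := hl.cons_true (x := u ^ n) hn (Or.inl rfl)
            refine ⟨(false, a) :: (true, u ^ n) :: l, Gd.cons_false h1 h2 ?_ ha.1 ha.2, ?_,
              by simp⟩
            · intro z hz
              simp only [List.head?_cons, Option.mem_def, Option.some.injEq] at hz
              rw [← hz]
            · rw [val_cons, hv, vl]
              simp
          | m =>
            obtain ⟨n, hn, l, hl, hv⟩ := i3 rfl
            obtain ⟨h1, h2⟩ := hl.cons_true (x := star u ^ n) hn (Or.inr rfl)
            refine ⟨(false, a) :: (true, star u ^ n) :: l, Gd.cons_false h1 h2 ?_ ha.1 ha.2, ?_,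
              by simp⟩
            · intro z hz
              simp only [List.head?_cons, Option.mem_def, Option.some.injEq] at hz
              rw [← hz]
            · rw [val_cons, hv, vl]
              simp
          | s a' => exact (hok (Lr.s a') (by simp)).elim
      · cases h
      · cases h

/-- traces of reduced words vanish if traces of alternating products vanish -/
theorem free_of (hF : ∀ l : List (Bool × A), l ≠ [] → (∀ z ∈ l, G τ S u z) →
      l.IsChain (fun x y => x.1 ≠ y.1) → τ ((l.map Prod.snd).prod) = 0) :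
    ∀ w : List (Lr A), Red τ S w → w ≠ [] → τ (val u w) = 0 := by
  intro w hw hne
  obtain ⟨h1, h2, h3⟩ := grouping (u := u) w hw
  cases w with
  | nil => exact absurd rfl hne
  | cons x w =>
    cases x with
    | p =>
      obtain ⟨n, hn, l, hl, hv⟩ := h2 rfl
      obtain ⟨h4, h5⟩ := hl.cons_true (x := u ^ n) hn (Or.inl rfl)
      have := hF _ (by simp) h4 h5
      rw [hv]
      simpa using this
    | m =>
      obtain ⟨n, hn, l, hl, hv⟩ := h3 rfl
      obtain ⟨h4, h5⟩ := hl.cons_true (x := star u ^ n) hn (Or.inr rfl)
      have := hF _ (by simp) h4 h5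
      rw [hv]
      simpa using this
    | s a =>
      obtain ⟨l, hl, hv, hl0⟩ := h1 (Or.inr rfl)
      rw [hv]
      exact hF l (hl0 hne) hl.1 hl.2.1

end Pool.Agent.H911R5.RDGcore
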