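import Pool.Agent.H923R2.FZ.Stubs1
import Pool.Agent.H911R5.RDGfree

/-!
# RDG: the norm estimate for a free Haar unitary (helper911)
-/

set_option autoImplicit false

noncomputable section

namespace Pool.Agent.H923R2.FZ.T_RDG

open Pool.Agent.H923R2.FP Pool.Agent.H923R2.FZ
open Pool.Agent.H911R5.RDGcore

theorem t_RDG (hT1 : Pool.Agent.H923R2.FP.S_T1) : Pool.Agent.H923R2.FZ.S_RDG := by
  intro B _ τ hτ S u hu hF b hb k
  have hu1 : star (u : B) * (u : B) = 1 := Unitary.coe_star_mul_self u
  have hu2 : (u : B) * star (u : B) = 1 := Unitary.coe_mul_star_self u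
  have hp : ∀ n : ℕ, 1 ≤ n → τ ((u : B) ^ n) = 0 := by
    intro n hn
    have := hu n (by exact_mod_cast (by omega : n ≠ 0))
    rw [zpow_natCast, SubmonoidClass.coe_pow] at this
    exact this
  have hm : ∀ n : ℕ, 1 ≤ n → τ (star (u : B) ^ n) = 0 := by
    intro n hn
    rw [← star_pow, hτ.str, hp n hn, map_zero]
  have hfree : ∀ w : List (Lr B), Red τ S w → w ≠ [] → τ (val (u : B) w) = 0 := by
    refine free_of ?_
    intro l hl hG hc
    have h1 := hF (l.map fun z => (!z.1, z.2)) (by simpa using hl) (by
      intro z hz
      rw [List.mem_map] at hz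
      obtain ⟨y, hy, rfl⟩ := hz
      obtain ⟨y1, y2⟩ := y
      have h2 := hG _ hy
      cases y1 with
      | true =>
        simp only [G, if_true] at h2
        obtain ⟨n, hn, h2⟩ := h2
        have hmem : (u : B) ∈ StarAlgebra.adjoin ℂ {(u : B)} :=
          StarAlgebra.subset_adjoin _ _ (Set.mem_singleton _)
        rcases h2 with h2 | h2
        · refine ⟨?_, ?_⟩
          · simp only [Bool.not_true, Bool.false_eq_true, if_false]
            rw [h2]
            exact pow_mem hmem n
          · change τ y2 = 0
            rw [h2]
            exact hp n hn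
        · refine ⟨?_, ?_⟩
          · simp only [Bool.not_true, Bool.false_eq_true, if_false]
            rw [h2]
            exact pow_mem (star_mem hmem) n
          · change τ y2 = 0
            rw [h2]
            exact hm n hn
      | false =>
        simp only [G, Bool.false_eq_true, if_false] at h2
        simpa using h2) (by
      rw [List.isChain_map]
      refine hc.imp ?_
      intro x y hxy hne
      exact hxy (by simpa using hne))
    rw [List.map_map] at h1
    exact h1
  have h := rdg hτ hT1 S (u : B) hu1 hu2 hfree b hb (k + 1) (by omega)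
  rw [Nat.add_sub_cancel] at h
  refine h.trans (le_of_eq ?_)
  push_cast
  ring

end Pool.Agent.H923R2.FZ.T_RDG
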