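import Mathlib
import Pool.Agent.H925R3.DC.Stubs

/-!
# PAR: choice of the parameters (helper911)
-/

namespace Pool.Agent.H911R5.DCPAR

open Filter Topology Real

/-- the binomial coefficient is at least `Y ^ k` if `2 k Y ≤ n` and `1 ≤ Y` -/
theorem choose_ge {n k : ℕ} {Y : ℝ} (hY : 1 ≤ Y) (h : 2 * (k : ℝ) * Y ≤ n) :
    Y ^ k ≤ (n.choose k : ℝ) := by
  rcases Nat.eq_zero_or_pos k with h0 | hpos
  · subst h0
    simp
  have hk0 : (0 : ℝ) < k := by exact_mod_cast hpos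
  have hkn : 2 * (k : ℝ) ≤ n := by nlinarith
  have hkn' : 2 * k ≤ n := by exact_mod_cast hkn
  have h1 : ((n + 1 - k : ℕ) ^ k : ℕ) ≤ k.factorial * n.choose k := by
    have h2 := Nat.pow_sub_le_descFactorial n k
    have h3 := Nat.descFactorial_eq_factorial_mul_choose n k
    rw [h3] at h2
    exact h2
  have h2 : (k.factorial : ℝ) ≤ (k : ℝ) ^ k := by exact_mod_cast Nat.factorial_le_pow k
  have h3 : ((n + 1 - k : ℕ) : ℝ) ^ k ≤ (k.factorial : ℝ) * n.choose k := by exact_mod_cast h1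
  have h4 : (k : ℝ) * Y ≤ ((n + 1 - k : ℕ) : ℝ) := by
    have h5 : ((n + 1 - k : ℕ) : ℝ) = (n : ℝ) + 1 - k := by
      rw [Nat.cast_sub (by omega)]
      push_cast
      ring
    rw [h5]
    nlinarith
  have h6 : ((k : ℝ) * Y) ^ k ≤ (k : ℝ) ^ k * n.choose k :=
    calc ((k : ℝ) * Y) ^ k ≤ ((n + 1 - k : ℕ) : ℝ) ^ k := pow_le_pow_left₀ (by positivity) h4 k
      _ ≤ (k.factorial : ℝ) * n.choose k := h3
      _ ≤ (k : ℝ) ^ k * n.choose k := mul_le_mul_of_nonneg_right h2 (by positivity)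
  rw [mul_pow] at h6
  exact le_of_mul_le_mul_left h6 (by positivity)

/-- the conditions on `L = log H` -/
structure Big (t q : ℕ) (η L : ℝ) : Prop where
  L1 : 1 ≤ L
  x1 : 1 ≤ Real.log (L ^ (2 - 8 * η))
  xe : 2 * (q : ℝ) ≤ (L ^ (2 - 8 * η)) ^ η
  tt : (t : ℝ) ≤ η * L ^ (2 * η + 8 * η ^ 2)
  x4 : Real.log 4 ≤ 2 * η * Real.log (L ^ (2 - 8 * η))
  lx : Real.log (L ^ (2 - 8 * η)) ≤ 2 * η * L
  l24 : Real.log 24 ≤ η * L

theorem big (t q : ℕ) {η : ℝ} (h0 : 0 < η) (h1 : η ≤ 1 / 64) : ∀ᶠ L : ℝ in atTop, Big t q η L := by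
  have hc : 0 < 2 - 8 * η := by linarith
  have hX : Tendsto (fun L : ℝ => L ^ (2 - 8 * η)) atTop atTop := tendsto_rpow_atTop hc
  have hlX : Tendsto (fun L : ℝ => Real.log (L ^ (2 - 8 * η))) atTop atTop :=
    Real.tendsto_log_atTop.comp hX
  have hXe : Tendsto (fun L : ℝ => (L ^ (2 - 8 * η)) ^ η) atTop atTop :=
    (tendsto_rpow_atTop h0).comp hX
  have hs : 0 < 2 * η + 8 * η ^ 2 := by positivity
  have hLs : Tendsto (fun L : ℝ => η * L ^ (2 * η + 8 * η ^ 2)) atTop atTop :=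
    (tendsto_rpow_atTop hs).const_mul_atTop h0
  have h4 : Tendsto (fun L : ℝ => 2 * η * Real.log (L ^ (2 - 8 * η))) atTop atTop :=
    hlX.const_mul_atTop (by positivity)
  have h5 : Tendsto (fun L : ℝ => η * L) atTop atTop := tendsto_id.const_mul_atTop h0
  have h6 : ∀ᶠ L : ℝ in atTop, ‖Real.log L‖ ≤ η * ‖L‖ :=
    Real.isLittleO_log_id_atTop.bound h0
  filter_upwards [eventually_ge_atTop 1, hlX.eventually_ge_atTop 1,
    hXe.eventually_ge_atTop (2 * (q : ℝ)), hLs.eventually_ge_atTop (t : ℝ),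
    h4.eventually_ge_atTop (Real.log 4), h6, h5.eventually_ge_atTop (Real.log 24)]
    with L a1 a2 a3 a4 a5 a6 a7
  refine ⟨a1, a2, a3, a4, a5, ?_, a7⟩
  have b1 : 0 < L := by linarith
  rw [Real.log_rpow b1]
  have b2 : 0 ≤ Real.log L := Real.log_nonneg a1
  rw [Real.norm_of_nonneg b2, Real.norm_of_nonneg b1.le] at a6
  nlinarith

theorem main {t q : ℕ} (hq : 1 ≤ q) {η ε : ℝ} (h0 : 0 < η) (h1 : η ≤ 1 / 64) (h2 : η ≤ ε / 8)
    {H : ℕ} (hH : 1 ≤ H) (hB : Big t q η (Real.log H)) {X : ℝ}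
    (hX : X = Real.log H ^ (2 - 8 * η)) {n : ℕ} (hn : X ^ (1 - η) / (q : ℝ) - 1 ≤ (n : ℝ))
    {N : ℕ} (hN : 0 < N) (hlN : Real.log N ≤ X ^ (1 / 2 + η)) :
    1 ≤ X ^ (1 - η) / (q : ℝ) - 1 ∧
    ∃ k : ℕ, (⌊X⌋₊ : ℝ) ^ (2 * k) ≤ H ∧ 0 < n.choose k ∧
      (N : ℝ) ^ t * (6 * 4 ^ k * (4 * H)) / (n.choose k : ℝ) ≤ (H : ℝ) ^ (3 / 4 + ε) := by
  set L := Real.log H with hL
  have hH0 : (0 : ℝ) < H := by exact_mod_cast hH
  have hL1 : 1 ≤ L := hB.L1
  have hL0 : 0 < L := by linarith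
  have hx1 : 1 ≤ Real.log X := by rw [hX]; exact hB.x1
  have hx0 : 0 < Real.log X := by linarith
  have hX0 : 0 < X := by
    rw [hX]
    exact Real.rpow_pos_of_pos hL0 _
  have hX1 : 1 ≤ X := by
    by_contra hcon
    push Not at hcon
    have := Real.log_nonpos hX0.le hcon.le
    linarith
  have hq0 : (0 : ℝ) < q := by exact_mod_cast hq
  have hqe : 2 * (q : ℝ) ≤ X ^ η := by rw [hX]; exact hB.xe
  -- (a)
  have ha : 2 * (q : ℝ) ≤ X ^ (1 - η) := by
    refine hqe.trans ?_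
    exact Real.rpow_le_rpow_of_exponent_le hX1 (by linarith)
  have hXn : X ^ (1 - η) / (2 * q) ≤ n := by
    have h3 : 1 ≤ X ^ (1 - η) / (2 * q) := by
      rw [le_div_iff₀ (by positivity)]
      linarith
    have h4 : X ^ (1 - η) / (q : ℝ) = 2 * (X ^ (1 - η) / (2 * q)) := by
      field_simp
    rw [h4] at hn
    linarith
  refine ⟨?_, ?_⟩
  · rw [le_sub_iff_add_le, le_div_iff₀ hq0]
    linarith
  -- the choice of `k`
  obtain ⟨k, hk⟩ : ∃ k : ℕ, k = ⌊L / (2 * Real.log X)⌋₊ := ⟨_, rfl⟩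
  have hk1 : (k : ℝ) ≤ L / (2 * Real.log X) := by
    rw [hk]
    exact Nat.floor_le (by positivity)
  have hk2 : L / (2 * Real.log X) < k + 1 := by
    rw [hk]
    exact Nat.lt_floor_add_one _
  have hk3 : 2 * (k : ℝ) * Real.log X ≤ L := by
    rw [le_div_iff₀ (by positivity)] at hk1
    linarith
  have hk4 : L < 2 * ((k : ℝ) + 1) * Real.log X := by
    rw [div_lt_iff₀ (by positivity)] at hk2
    linarith
  have hk0 : (0 : ℝ) ≤ k := Nat.cast_nonneg k
  -- binomial coefficient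
  have hY1 : 1 ≤ X ^ (1 / 2 - 5 * η) := Real.one_le_rpow hX1 (by linarith)
  have hLX : L ≤ X ^ (1 / 2 + 3 * η) := by
    rw [hX, ← Real.rpow_mul hL0.le]
    calc L = L ^ (1 : ℝ) := (Real.rpow_one L).symm
      _ ≤ _ := Real.rpow_le_rpow_of_exponent_le hL1 (by nlinarith)
  have hkn : 2 * (k : ℝ) * X ^ (1 / 2 - 5 * η) ≤ n := by
    have h3 : 2 * (k : ℝ) ≤ L := by nlinarith
    calc 2 * (k : ℝ) * X ^ (1 / 2 - 5 * η) ≤ X ^ (1 / 2 + 3 * η) * X ^ (1 / 2 - 5 * η) :=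
          mul_le_mul_of_nonneg_right (h3.trans hLX) (by linarith)
      _ = X ^ (1 - η) / X ^ η := by
          rw [← Real.rpow_add hX0, ← Real.rpow_sub hX0]
          congr 1
          ring
      _ ≤ X ^ (1 - η) / (2 * q) :=
          div_le_div_of_nonneg_left (by positivity) (by positivity) hqe
      _ ≤ n := hXn
  have hch := choose_ge hY1 hkn
  have hch0 : (0 : ℝ) < n.choose k := lt_of_lt_of_le (by positivity) hch
  refine ⟨k, ?_, by exact_mod_cast hch0, ?_⟩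
  · calc (⌊X⌋₊ : ℝ) ^ (2 * k) ≤ X ^ (2 * k) :=
          pow_le_pow_left₀ (Nat.cast_nonneg _) (Nat.floor_le hX0.le) _
      _ = Real.exp (2 * k * Real.log X) := by
          rw [← Real.exp_log (pow_pos hX0 (2 * k)), Real.log_pow]
          push_cast
          rfl
      _ ≤ Real.exp L := Real.exp_le_exp.2 hk3
      _ = H := Real.exp_log hH0
  · have hN0 : (0 : ℝ) < N := by exact_mod_cast hN
    have hnum : 0 < (N : ℝ) ^ t * (6 * 4 ^ k * (4 * H)) := by positivity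
    rw [← Real.log_le_log_iff (by positivity) (by positivity), Real.log_rpow hH0,
      Real.log_div hnum.ne' hch0.ne', Real.log_mul (by positivity) (by positivity),
      Real.log_pow]
    have e1 : Real.log (6 * 4 ^ k * (4 * (H : ℝ))) = Real.log 24 + k * Real.log 4 + L := by
      have : (6 : ℝ) * 4 ^ k * (4 * H) = 24 * 4 ^ k * H := by ring
      rw [this, Real.log_mul (by positivity) (by positivity),
        Real.log_mul (by positivity) (by positivity), Real.log_pow]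
    rw [e1]
    -- the terms
    have t1 : (t : ℝ) * Real.log N ≤ η * L := by
      have h3 : X ^ (1 / 2 + η) * L ^ (2 * η + 8 * η ^ 2) = L := by
        rw [hX, ← Real.rpow_mul hL0.le, ← Real.rpow_add hL0]
        have : (2 - 8 * η) * (1 / 2 + η) + (2 * η + 8 * η ^ 2) = 1 := by ring
        rw [this, Real.rpow_one]
      have h4 : 0 ≤ X ^ (1 / 2 + η) := by positivity
      have h5 := hB.tt
      calc (t : ℝ) * Real.log N ≤ t * X ^ (1 / 2 + η) :=
            mul_le_mul_of_nonneg_left hlN (Nat.cast_nonneg t)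
        _ ≤ (η * L ^ (2 * η + 8 * η ^ 2)) * X ^ (1 / 2 + η) := mul_le_mul_of_nonneg_right h5 h4
        _ = η * (X ^ (1 / 2 + η) * L ^ (2 * η + 8 * η ^ 2)) := by ring
        _ = η * L := by rw [h3]
    have t2 : Real.log 24 ≤ η * L := hB.l24
    have t3 : (k : ℝ) * Real.log 4 ≤ η * L := by
      have h3 : Real.log 4 ≤ 2 * η * Real.log X := by rw [hX]; exact hB.x4
      calc (k : ℝ) * Real.log 4 ≤ k * (2 * η * Real.log X) := mul_le_mul_of_nonneg_left h3 hk0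
        _ = η * (2 * k * Real.log X) := by ring
        _ ≤ η * L := mul_le_mul_of_nonneg_left hk3 h0.le
    have t4 : k * ((1 / 2 - 5 * η) * Real.log X) ≤ Real.log (n.choose k : ℝ) := by
      have h3 := Real.log_le_log (by positivity) hch
      rw [Real.log_pow, Real.log_rpow hX0] at h3
      exact h3
    have t5 : Real.log X ≤ 2 * η * L := by rw [hX]; exact hB.lx
    have t6 : (1 / 4 - 5 / 2 * η) * L - η * L ≤ k * ((1 / 2 - 5 * η) * Real.log X) := by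
      have h3 : L / 2 - Real.log X ≤ k * Real.log X := by linarith
      have h4 : 0 ≤ 1 / 2 - 5 * η := by linarith
      have h5 := mul_le_mul_of_nonneg_left h3 h4
      have h6 : (1 / 2 - 5 * η) * Real.log X ≤ η * L :=
        calc (1 / 2 - 5 * η) * Real.log X ≤ (1 / 2) * Real.log X :=
              mul_le_mul_of_nonneg_right (by linarith) hx0.le
          _ ≤ (1 / 2) * (2 * η * L) := mul_le_mul_of_nonneg_left t5 (by norm_num)
          _ = η * L := by ring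
      have h7 : (1 / 2 - 5 * η) * (L / 2 - Real.log X)
          = (1 / 4 - 5 / 2 * η) * L - (1 / 2 - 5 * η) * Real.log X := by ring
      have h8 : (1 / 2 - 5 * η) * (k * Real.log X)
          = k * ((1 / 2 - 5 * η) * Real.log X) := by ring
      rw [h7, h8] at h5
      linarith
    have t7 : η * L ≤ ε / 8 * L := mul_le_mul_of_nonneg_right h2 hL0.le
    have t8 : 0 ≤ η * L := mul_nonneg h0.le hL0.le
    have t9 : (1 / 4 - 5 / 2 * η) * L = L / 4 - 5 / 2 * (η * L) := by ring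
    have t10 : (3 / 4 + ε) * L = 3 / 4 * L + 8 * (ε / 8 * L) := by ring
    rw [t9] at t6
    rw [t10]
    linarith

/-- the stronger form: `δ ≤ 1` and `η ≤ 1` -/
theorem par' : ∀ (t q : ℕ), 1 ≤ q → ∀ ε : ℝ, 0 < ε → ∃ δ : ℝ, 0 < δ ∧ δ ≤ 1 ∧ ∃ η : ℝ, 0 < η ∧
    η ≤ 1 ∧
    ∃ H₀ : ℕ, ∀ H : ℕ, H₀ ≤ H → ∀ (X : ℝ), X = Real.log H ^ (2 - δ) → ∀ n : ℕ,
      X ^ (1 - η) / (q : ℝ) - 1 ≤ (n : ℝ) → ∀ N : ℕ, 0 < N → Real.log N ≤ X ^ (1 / 2 + η) →
      1 ≤ X ^ (1 - η) / (q : ℝ) - 1 ∧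
      ∃ k : ℕ, (⌊X⌋₊ : ℝ) ^ (2 * k) ≤ H ∧ 0 < n.choose k ∧
        (N : ℝ) ^ t * (6 * 4 ^ k * (4 * H)) / (n.choose k : ℝ) ≤ (H : ℝ) ^ (3 / 4 + ε) := by
  intro t q hq ε hε
  set η : ℝ := min (ε / 8) (1 / 64) with hη
  have h0 : 0 < η := lt_min (by positivity) (by norm_num)
  have h1 : η ≤ 1 / 64 := min_le_right _ _
  have h2 : η ≤ ε / 8 := min_le_left _ _
  have hlog : Tendsto (fun H : ℕ => Real.log (H : ℝ)) atTop atTop :=
    Real.tendsto_log_atTop.comp tendsto_natCast_atTop_atTop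
  obtain ⟨H₀, hH₀⟩ := eventually_atTop.1 ((hlog.eventually (big t q h0 h1)).and
    (eventually_ge_atTop 1))
  refine ⟨8 * η, by positivity, by linarith, η, h0, by linarith, H₀, ?_⟩
  intro H hH X hX n hn N hN hlN
  obtain ⟨hB, hH1⟩ := hH₀ H hH
  exact main hq h0 h1 h2 hH1 hB hX hn hN hlN

theorem par : Pool.Agent.H925R3.DC.PAR := by
  intro t q hq ε hε
  obtain ⟨δ, h1, -, η, h2, -, h3⟩ := par' t q hq ε hε
  exact ⟨δ, h1, η, h2, h3⟩

end Pool.Agent.H911R5.DCPAR
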